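import Pool.Agent.H19.KL.Stmts2

/-!
# Project KL: COO
-/

set_option autoImplicit false

open MeasureTheory Set
open scoped ContDiff

namespace Pool.Agent.H19.KL

open Pool.Agent.H84 Pool.Agent.H84.Sym Pool.Agent.H84.Sym.P2x Pool.Agent.H84.Sym.C29
open Pool.Agent.H73.Lp

theorem coo_thm (E : Type) [NormedAddCommGroup E] [InnerProductSpace ℝ E]
    [FiniteDimensional ℝ E] [MeasurableSpace E] [BorelSpace E] : COOStmt E := by
  intro ι _ v β hv hβ
  have : CompleteSpace E := FiniteDimensional.complete ℝ E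
  -- the embedding into `ℝ^ι`
  let A : E →ₗ[ℝ] EuclideanSpace ℝ ι :=
    { toFun := fun x => WithLp.toLp 2 (fun j => Real.sqrt (β j) * inner ℝ (v j) x)
      map_add' := by
        intro x y
        ext j
        simp [inner_add_right, mul_add]
      map_smul' := by
        intro c x
        ext j
        simp [real_inner_smul_right]
        ring }
  have hA : ∀ x j, A x j = Real.sqrt (β j) * inner ℝ (v j) x := fun x j => rfl
  have hnorm : ∀ x, ‖A x‖ ^ 2 = ∑ j, β j * (inner ℝ (v j) x) ^ 2 := by
    intro x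
    rw [EuclideanSpace.norm_sq_eq]
    refine Finset.sum_congr rfl fun j _ => ?_
    rw [hA, Real.norm_eq_abs, sq_abs, mul_pow, Real.sq_sqrt (hβ j).le]
  have hinj : Function.Injective A := by
    rw [injective_iff_map_eq_zero]
    intro x hx
    refine hv x fun j => ?_
    have h1 : A x j = 0 := by rw [hx]; rfl
    rw [hA] at h1
    have h2 : Real.sqrt (β j) ≠ 0 := (Real.sqrt_pos.2 (hβ j)).ne'
    exact (mul_eq_zero.1 h1).resolve_left h2
  let T : E ≃ₗ[ℝ] LinearMap.range A := LinearEquiv.ofInjective A hinj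
  have hfr : Module.finrank ℝ (LinearMap.range A) = Module.finrank ℝ E := T.finrank_eq.symm
  let L : LinearMap.range A ≃ₗᵢ[ℝ] E :=
    (stdOrthonormalBasis ℝ (LinearMap.range A)).equiv (stdOrthonormalBasis ℝ E) (finCongr hfr)
  let S : E ≃L[ℝ] E := (T.trans L.toLinearEquiv).toContinuousLinearEquiv
  have hS : ∀ x, ‖S x‖ = ‖A x‖ := by
    intro x
    have h1 : S x = L (T x) := rfl
    rw [h1, L.norm_map]
    rfl
  refine ⟨S, fun j => ContinuousLinearMap.adjoint (S.symm : E →L[ℝ] E) (v j), ?_, ?_⟩
  · intro j x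
    rw [ContinuousLinearMap.adjoint_inner_left]
    simp
  · intro w
    have h1 : ∀ j, (inner ℝ (ContinuousLinearMap.adjoint (S.symm : E →L[ℝ] E) (v j)) w : ℝ) =
        inner ℝ (v j) (S.symm w) := by
      intro j
      rw [ContinuousLinearMap.adjoint_inner_left]
      rfl
    simp only [h1]
    rw [← hnorm, ← hS]
    simp

end Pool.Agent.H19.KL
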