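import Pool.Agent.H27.KL.FB

/-!
# Project KL: FUB
-/

set_option autoImplicit false

open MeasureTheory Set
open scoped ContDiff

namespace Pool.Agent.H19.KL

open Pool.Agent.H84 Pool.Agent.H84.Sym Pool.Agent.H84.Sym.P2x Pool.Agent.H84.Sym.C29

theorem fub_thm (E : Type) [NormedAddCommGroup E] [InnerProductSpace ℝ E]
    [FiniteDimensional ℝ E] [MeasurableSpace E] [BorelSpace E]
    (_h1 : NCDStmt E) (h2 : HESStmt E) (_h3 : GROStmt E) : FUBStmt E := by
  intro U t C s hU hs F hF
  have hA : Adm U s := adm_of_pot hU hs
  obtain ⟨C', hW⟩ := (h2 U t C s hU hs).1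
  have hWc : Continuous (WW U s) := hW.smooth.continuous
  have hg : 0 < gs E s := gs_pos hs
  have hgne := hg.ne'
  -- the second formula, for every function of exponential growth
  have key : ∀ F : E → ℝ, GC F →
      ∫ y, F y ∂(mu (WW U s)) = ∫ x, av (fun _ => 0) s F x ∂(mu U) := by
    intro F hF
    obtain ⟨A, B, hA0, hB0, hAB⟩ := Gr.norm hF.2
    rw [integral_mu hWc, integral_mu hU.smooth.continuous]
    have i1 : Integrable (fun p : E × E => F p.2 * Real.exp (-pt U s p.2 p.1))
        ((volume : Measure E).prod volume) := by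
      refine fb_int_prod hU hs (Φ := fun p => F p.2) (hF.1.comp continuous_snd) (A := A) (B := B) ?_
      intro p
      refine (hAB p.2).trans (mul_le_mul_of_nonneg_left (Real.exp_le_exp.2 ?_) hA0)
      exact mul_le_mul_of_nonneg_left (by linarith [norm_nonneg p.1]) hB0
    have i2 := integral_integral_swap
      (f := fun x y : E => F y * Real.exp (-pt U s y x)) i1
    have e1 : ∫ y, F y * Real.exp (-WW U s y) =
        (gs E s)⁻¹ * ∫ y : E, ∫ x : E, F y * Real.exp (-pt U s y x) := by
      rw [← integral_const_mul]
      congr 1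
      ext y
      rw [exp_neg_WW hA, integral_const_mul]
      unfold NI
      simp only [one_mul]
      field_simp
    rw [e1, ← i2, ← integral_const_mul]
    congr 1
    ext x
    have e2 : av (fun _ : E => (0:ℝ)) s F x =
        (gs E s)⁻¹ * ∫ y : E, F y * Real.exp (-(s * ‖y - x‖ ^ 2 / 2)) := by
      unfold av NI pt
      simp only [one_mul, zero_add]
      rw [fb_noise']
      field_simp
    rw [e2, mul_assoc, ← integral_mul_const]
    congr 1
    congr 1
    ext y
    unfold pt
    rw [mul_assoc, ← Real.exp_add, norm_sub_rev y x]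
    congr 1
    ring_nf
  refine ⟨?_, key F hF, ?_⟩
  · obtain ⟨A, B, hA0, hB0, hAB⟩ := Gr.norm hF.2
    rw [integral_mu hWc, integral_mu hU.smooth.continuous]
    have i1 : Integrable (fun p : E × E => F p.1 * Real.exp (-pt U s p.2 p.1))
        ((volume : Measure E).prod volume) := by
      refine fb_int_prod hU hs (Φ := fun p => F p.1) (hF.1.comp continuous_fst) (A := A) (B := B) ?_
      intro p
      refine (hAB p.1).trans (mul_le_mul_of_nonneg_left (Real.exp_le_exp.2 ?_) hA0)
      exact mul_le_mul_of_nonneg_left (by linarith [norm_nonneg p.2]) hB0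
    have i2 := integral_integral_swap
      (f := fun x y : E => F x * Real.exp (-pt U s y x)) i1
    have e1 : ∫ y, av U s F y * Real.exp (-WW U s y) =
        (gs E s)⁻¹ * ∫ y : E, ∫ x : E, F x * Real.exp (-pt U s y x) := by
      rw [← integral_const_mul]
      congr 1
      ext y
      rw [av_mul_exp hA]
      unfold NI
      field_simp
    rw [e1, ← i2, ← integral_const_mul]
    congr 1
    ext x
    have e3 : ∫ y : E, F x * Real.exp (-pt U s y x) = F x * Real.exp (-U x) * gs E s := by
      rw [← fb_noise s x, ← integral_const_mul]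
      congr 1
      ext y
      unfold pt
      rw [mul_assoc, ← Real.exp_add]
      congr 1
      ring_nf
    rw [e3]
    field_simp
  · intro hp
    have h := key (fun _ => 1) (GC.const 1)
    have e : (fun x => av (fun _ : E => (0:ℝ)) s (fun _ => (1:ℝ)) x) = fun _ => 1 := by
      ext x
      exact av_const (adm_zero hs) 1 x
    rw [e] at h
    simp only [integral_const, smul_eq_mul, mul_one] at h
    have hf : IsFiniteMeasure (mu (WW U s)) := isFinite_mu hW
    refine ⟨?_⟩
    have h3 : (mu U).real univ = 1 := by simp
    rw [h3] at h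
    exact (ENNReal.toReal_eq_one_iff _).1 h

end Pool.Agent.H19.KL
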