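import Pool.Agent.H27.KL.FB

/-!
# Project KL: GAU
-/

set_option autoImplicit false

open MeasureTheory Set
open scoped ContDiff

namespace Pool.Agent.H19.KL

open Pool.Agent.H84 Pool.Agent.H84.Sym Pool.Agent.H84.Sym.P2x Pool.Agent.H84.Sym.C29

variable {E : Type*} [NormedAddCommGroup E] [InnerProductSpace ℝ E]
    [FiniteDimensional ℝ E] [MeasurableSpace E] [BorelSpace E]

omit [FiniteDimensional ℝ E] [MeasurableSpace E] [BorelSpace E] in
private theorem gau_sq {s τ : ℝ} (hs : 0 < s) (hτ : 0 < τ) (x y z : E) :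
    s * ‖x - y‖ ^ 2 + τ * ‖y - z‖ ^ 2 = (s + τ) * ‖y - (s + τ)⁻¹ • (s • x + τ • z)‖ ^ 2 +
      s * τ / (s + τ) * ‖x - z‖ ^ 2 := by
  have hne : s + τ ≠ 0 := by positivity
  have e1 : ‖y - (s + τ)⁻¹ • (s • x + τ • z)‖ ^ 2 = (s + τ)⁻¹ ^ 2 *
      ‖s • (y - x) + τ • (y - z)‖ ^ 2 := by
    have : y - (s + τ)⁻¹ • (s • x + τ • z) = (s + τ)⁻¹ • (s • (y - x) + τ • (y - z)) := by
      have h : y = (s + τ)⁻¹ • ((s + τ) • y) := by
        rw [smul_smul, inv_mul_cancel₀ hne, one_smul]
      conv_lhs => rw [h]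
      rw [← smul_sub]
      congr 1
      rw [add_smul, smul_sub, smul_sub]
      abel
    rw [this, norm_smul, mul_pow, Real.norm_eq_abs, sq_abs]
  have e2 : ‖x - z‖ ^ 2 = ‖(y - z) - (y - x)‖ ^ 2 := by
    congr 2
    abel
  rw [e1, e2, norm_sub_rev x y, norm_add_sq_real, norm_sub_sq_real (y - z) (y - x), norm_smul,
    norm_smul, real_inner_smul_left, real_inner_smul_right, real_inner_comm (y - x) (y - z)]
  simp only [Real.norm_eq_abs, mul_pow, sq_abs]
  field_simp
  ring

private theorem gau_key {U : E → ℝ} {t C s τ : ℝ} (hU : Pot U t C) (hs : 0 < s) (hτ : 0 < τ)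
    {F : E → ℝ} (hF : GC F) (z : E) :
    NI (WW U s) τ (av U s F) z = gs E (s + τ) / gs E s * NI U (s * τ / (s + τ)) F z := by
  have hA : Adm U s := adm_of_pot hU hs
  have hg : 0 < gs E s := gs_pos hs
  obtain ⟨A, B, hA0, hB0, hAB⟩ := Gr.norm hF.2
  have i1 : Integrable (fun p : E × E => (F p.1 * Real.exp (-(τ * ‖p.2 - z‖ ^ 2 / 2))) *
      Real.exp (-pt U s p.2 p.1)) ((volume : Measure E).prod volume) := by
    refine fb_int_prod hU hs (Φ := fun p => F p.1 * Real.exp (-(τ * ‖p.2 - z‖ ^ 2 / 2)))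
      ?_ (A := A) (B := B) ?_
    · have := hF.1
      fun_prop
    · intro p
      rw [abs_mul, abs_of_pos (Real.exp_pos _)]
      have h1 : Real.exp (-(τ * ‖p.2 - z‖ ^ 2 / 2)) ≤ 1 := by
        apply Real.exp_le_one_iff.2
        have : 0 ≤ τ * ‖p.2 - z‖ ^ 2 / 2 := by positivity
        linarith
      calc |F p.1| * Real.exp (-(τ * ‖p.2 - z‖ ^ 2 / 2)) ≤ |F p.1| * 1 :=
            mul_le_mul_of_nonneg_left h1 (abs_nonneg _)
        _ ≤ A * Real.exp (B * ‖p.1‖) := by rw [mul_one]; exact hAB p.1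
        _ ≤ _ := by
            refine mul_le_mul_of_nonneg_left (Real.exp_le_exp.2 ?_) hA0
            exact mul_le_mul_of_nonneg_left (by linarith [norm_nonneg p.2]) hB0
  have i2 := integral_integral_swap
    (f := fun x y : E => (F x * Real.exp (-(τ * ‖y - z‖ ^ 2 / 2))) * Real.exp (-pt U s y x)) i1
  have e1 : NI (WW U s) τ (av U s F) z = (gs E s)⁻¹ * ∫ y : E, ∫ x : E,
      (F x * Real.exp (-(τ * ‖y - z‖ ^ 2 / 2))) * Real.exp (-pt U s y x) := by
    unfold NI
    rw [← integral_const_mul]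
    congr 1
    ext y
    have e2 : av U s F y * Real.exp (-pt (WW U s) τ z y) =
        (av U s F y * Real.exp (-WW U s y)) * Real.exp (-(τ * ‖y - z‖ ^ 2 / 2)) := by
      rw [mul_assoc, ← Real.exp_add]
      congr 2
      unfold pt
      ring
    rw [e2, av_mul_exp hA]
    unfold NI
    rw [div_mul_eq_mul_div, ← integral_mul_const, div_eq_inv_mul]
    congr 1
    congr 1
    ext x
    ring
  rw [e1, ← i2]
  unfold NI
  rw [← integral_const_mul, ← integral_const_mul]
  congr 1
  ext x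
  have e3 : ∫ y : E, (F x * Real.exp (-(τ * ‖y - z‖ ^ 2 / 2))) * Real.exp (-pt U s y x) =
      F x * Real.exp (-pt U (s * τ / (s + τ)) z x) * gs E (s + τ) := by
    rw [← fb_noise' (s + τ) ((s + τ)⁻¹ • (s • x + τ • z)), ← integral_const_mul]
    congr 1
    ext y
    rw [mul_assoc, mul_assoc, ← Real.exp_add, ← Real.exp_add]
    congr 2
    have := gau_sq hs hτ x y z
    unfold pt
    linarith
  rw [e3]
  field_simp

theorem gau_thm (E : Type) [NormedAddCommGroup E] [InnerProductSpace ℝ E]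
    [FiniteDimensional ℝ E] [MeasurableSpace E] [BorelSpace E]
    (_h1 : NCDStmt E) (_h2 : HESStmt E) : GAUStmt E := by
  intro U t C s τ hU hs hτ
  have hA : Adm U s := adm_of_pot hU hs
  have hs0 : 0 < s * τ / (s + τ) := by positivity
  have hA0 : Adm U (s * τ / (s + τ)) := adm_of_pot hU hs0
  have h1 : ∀ z, NI (WW U s) τ (fun _ => 1) z =
      gs E (s + τ) / gs E s * NI U (s * τ / (s + τ)) (fun _ => 1) z := by
    intro z
    have h := gau_key hU hs hτ (GC.const 1) z
    have e : av U s (fun _ : E => (1:ℝ)) = fun _ => 1 := by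
      ext x
      exact av_const hA 1 x
    rw [e] at h
    exact h
  have g1 := gs_pos (E := E) hs
  have g2 := gs_pos (E := E) hτ
  have g3 := gs_pos (E := E) hs0
  have g4 := gs_pos (E := E) (by positivity : 0 < s + τ)
  constructor
  · ext z
    unfold WW
    congr 2
    have h2 : NI (fun y => -Real.log (NI U s (fun _ => 1) y / gs E s)) τ (fun _ => 1) z =
        gs E (s + τ) / gs E s * NI U (s * τ / (s + τ)) (fun _ => 1) z := h1 z
    rw [h2]
    have h3 := fb_gs_mul (E := E) hs hτ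
    rw [div_eq_div_iff g2.ne' g3.ne', div_mul_eq_mul_div, div_mul_eq_mul_div,
      div_eq_iff g1.ne']
    linear_combination (NI U (s * τ / (s + τ)) (fun _ => 1) z) * h3
  · intro F hF z
    have h2 := NI_one_pos hA0 z
    unfold av
    have h3 := gau_key hU hs hτ hF z
    unfold av at h3
    rw [h3, h1 z]
    field_simp

end Pool.Agent.H19.KL
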