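import Pool.Agent.H19.KL.Stmts2

/-!
# Project KL: TRF
-/

set_option autoImplicit false

open MeasureTheory Set
open scoped ContDiff

namespace Pool.Agent.H19.KL

open Pool.Agent.H84 Pool.Agent.H84.Sym Pool.Agent.H84.Sym.P2x Pool.Agent.H84.Sym.C29
open Pool.Agent.H73.Lp

private theorem trf_chg {E : Type} [NormedAddCommGroup E] [InnerProductSpace ℝ E]
    [FiniteDimensional ℝ E] [MeasurableSpace E] [BorelSpace E] (S : E ≃L[ℝ] E) (K : Set E) :
    ∃ r : ℝ, 0 < r ∧ ∀ f : E → ℝ, ∫ x in S ⁻¹' K, f (S x) = r * ∫ x in K, f x := by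
  have hdet : LinearMap.det (S.toLinearEquiv : E →ₗ[ℝ] E) ≠ 0 :=
    (LinearEquiv.isUnit_det' S.toLinearEquiv).ne_zero
  have hmap : Measure.map S (volume : Measure E) =
      ENNReal.ofReal |(LinearMap.det (S.toLinearEquiv : E →ₗ[ℝ] E))⁻¹| • volume :=
    Measure.map_linearMap_addHaar_eq_smul_addHaar (μ := (volume : Measure E)) hdet
  refine ⟨|(LinearMap.det (S.toLinearEquiv : E →ₗ[ℝ] E))⁻¹|, abs_pos.2 (inv_ne_zero hdet), ?_⟩
  intro f
  have hemb : MeasurableEmbedding S := S.toHomeomorph.measurableEmbedding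
  rw [← hemb.setIntegral_map f K, hmap, Measure.restrict_smul, integral_smul_measure,
    ENNReal.toReal_ofReal (abs_nonneg _), smul_eq_mul]

theorem trf_thm (E : Type) [NormedAddCommGroup E] [InnerProductSpace ℝ E]
    [FiniteDimensional ℝ E] [MeasurableSpace E] [BorelSpace E] : TRFStmt E := by
  intro ι _ v v' φ p q hφ hp hpq hv S hS
  have hSp : Spans v' := by
    intro y hy
    have h1 : S.symm y = 0 := by
      refine hv _ fun j => ?_
      rw [← hS j, S.apply_symm_apply]
      exact hy j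
    have h2 := congrArg S h1
    rwa [S.apply_symm_apply, map_zero] at h2
  have hK : KK v φ = S ⁻¹' (KK v' φ) := by
    ext x
    simp only [KK, Ph, Set.mem_preimage, Set.mem_ofPred_eq, hS]
  obtain ⟨r, hr, hchg⟩ := trf_chg S (KK v' φ)
  rw [← hK] at hchg
  have hvol : volume.real (KK v φ) = r * volume.real (KK v' φ) := by
    have h := hchg (fun _ => 1)
    simpa using h
  refine ⟨hSp, ?_, ?_⟩
  · intro j
    unfold m1
    have h := hchg (fun y => |inner ℝ (v' j) y|)
    simp only [hS] at h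
    rw [h, hvol, mul_div_mul_left _ _ hr.ne']
  · intro Λ lam hΛ hlam hle hPC g hg
    obtain ⟨R, -, hCB⟩ := KK_CB hφ hp hpq hv
    have hg' : ContDiff ℝ 1 (fun y => g (S.symm y)) := hg.comp S.symm.contDiff
    have key := hPC _ hg'
    have h1 := hchg (fun y => g (S.symm y) ^ 2)
    have h2 := hchg (fun y => g (S.symm y))
    have h3 := hchg (fun y => ‖fderiv ℝ (fun y => g (S.symm y)) y‖ ^ 2)
    simp only [S.symm_apply_apply] at h1 h2 h3
    have hfd : ∀ x, ‖fderiv ℝ (fun y => g (S.symm y)) (S x)‖ ^ 2 ≤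
        lam ^ 2 * ‖fderiv ℝ g x‖ ^ 2 := by
      intro x
      have e1 : fderiv ℝ (fun y => g (S.symm y)) (S x) =
          (fderiv ℝ g x).comp (S.symm : E →L[ℝ] E) := by
        have hd : DifferentiableAt ℝ g (S.symm (S x)) :=
          (hg.differentiable (by norm_num)) _
        have := fderiv_comp (S x) hd S.symm.differentiableAt
        rw [S.symm_apply_apply] at this
        rw [show (fun y => g (S.symm y)) = g ∘ S.symm from rfl, this]
        congr 1
        exact S.symm.fderiv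
      rw [e1, ← mul_pow]
      refine pow_le_pow_left₀ (norm_nonneg _) ?_ 2
      refine ContinuousLinearMap.opNorm_le_bound _ (by positivity) fun y => ?_
      have e2 : ‖S.symm y‖ ≤ lam * ‖y‖ := by
        have := hle (S.symm y)
        rwa [S.apply_symm_apply] at this
      calc ‖(fderiv ℝ g x) (S.symm y)‖ ≤ ‖fderiv ℝ g x‖ * ‖S.symm y‖ :=
            (fderiv ℝ g x).le_opNorm _
        _ ≤ ‖fderiv ℝ g x‖ * (lam * ‖y‖) := mul_le_mul_of_nonneg_left e2 (norm_nonneg _)
        _ = _ := by ring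
    have hcont1 : Continuous (fun x => ‖fderiv ℝ g x‖ ^ 2) :=
      ((hg.continuous_fderiv (by norm_num)).norm).pow 2
    have hcont2 : Continuous (fun x => ‖fderiv ℝ (fun y => g (S.symm y)) (S x)‖ ^ 2) :=
      (((hg'.continuous_fderiv (by norm_num)).comp S.continuous).norm).pow 2
    have hint : ∀ f : E → ℝ, Continuous f → IntegrableOn f (KK v φ) := by
      intro f hf
      exact (hf.continuousOn.integrableOn_compact (isCompact_closedBall (0:E) R)).mono_set hCB.sub
    have h4 : ∫ x in KK v φ, ‖fderiv ℝ (fun y => g (S.symm y)) (S x)‖ ^ 2 ≤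
        lam ^ 2 * ∫ x in KK v φ, ‖fderiv ℝ g x‖ ^ 2 := by
      rw [← integral_const_mul]
      exact setIntegral_mono (hint _ hcont2) ((hint _ hcont1).const_mul _) hfd
    have h5 : 0 ≤ volume.real (KK v φ) := measureReal_nonneg
    calc volume.real (KK v φ) * (∫ x in KK v φ, g x ^ 2) - (∫ x in KK v φ, g x) ^ 2
        = r ^ 2 * (volume.real (KK v' φ) * (∫ y in KK v' φ, g (S.symm y) ^ 2) -
            (∫ y in KK v' φ, g (S.symm y)) ^ 2) := by
          rw [h1, h2, hvol]; ring
      _ ≤ r ^ 2 * (Λ ^ 2 * (volume.real (KK v' φ) *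
            ∫ x in KK v' φ, ‖fderiv ℝ (fun y => g (S.symm y)) x‖ ^ 2)) :=
          mul_le_mul_of_nonneg_left key (by positivity)
      _ = Λ ^ 2 * (volume.real (KK v φ) *
            ∫ x in KK v φ, ‖fderiv ℝ (fun y => g (S.symm y)) (S x)‖ ^ 2) := by
          rw [h3, hvol]; ring
      _ ≤ Λ ^ 2 * (volume.real (KK v φ) * (lam ^ 2 * ∫ x in KK v φ, ‖fderiv ℝ g x‖ ^ 2)) := by
          gcongr
      _ = (Λ * lam) ^ 2 * (volume.real (KK v φ) * ∫ x in KK v φ, ‖fderiv ℝ g x‖ ^ 2) := by ring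

end Pool.Agent.H19.KL
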