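import Pool.Agent.H19.KL.Stmts

/-!
# Project KL: Fubini for the pair `(x, x + noise)`: common lemmas of FUB and GAU
-/

set_option autoImplicit false

open MeasureTheory Set
open scoped ContDiff

namespace Pool.Agent.H19.KL

open Pool.Agent.H84 Pool.Agent.H84.Sym Pool.Agent.H84.Sym.P2x Pool.Agent.H84.Sym.C29

variable {E : Type*} [NormedAddCommGroup E] [InnerProductSpace ℝ E]
    [FiniteDimensional ℝ E] [MeasurableSpace E] [BorelSpace E]

omit [InnerProductSpace ℝ E] [FiniteDimensional ℝ E] [MeasurableSpace E] [BorelSpace E] in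
theorem fb_gc_exp (B : ℝ) : GC (fun x : E => Real.exp (B * ‖x‖)) :=
  ⟨by fun_prop, 1, B, fun x => by rw [abs_of_pos (Real.exp_pos _), one_mul]⟩

theorem fb_int_prod {U : E → ℝ} {t C s : ℝ} (hU : Pot U t C) (hs : 0 < s) {Φ : E × E → ℝ}
    (hc : Continuous Φ) {A B : ℝ} (h : ∀ p, |Φ p| ≤ A * Real.exp (B * (‖p.1‖ + ‖p.2‖))) :
    Integrable (fun p : E × E => Φ p * Real.exp (-pt U s p.2 p.1))
      ((volume : Measure E).prod volume) := by
  have ht := hU.pos
  have hUc : Continuous U := hU.smooth.continuous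
  have hA : 0 ≤ A := by
    have := (abs_nonneg _).trans (h 0)
    simpa using this
  set G := ‖fderiv ℝ U 0‖ with hG
  set c : ℝ := t / 4 * (s / 2) / (t / 4 + s / 2) with hcdef
  have hcpos : 0 < c := by positivity
  have i1 : Integrable (fun x : E => Real.exp ((B + G) * ‖x‖) *
      Real.exp (-pt (fun _ : E => (0:ℝ)) (t / 2) 0 x)) :=
    NI_int (adm_zero (by positivity)) (fb_gc_exp (B + G)) 0
  have i2 : Integrable (fun y : E => Real.exp (B * ‖y‖) *
      Real.exp (-pt (fun _ : E => (0:ℝ)) (2 * c) 0 y)) :=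
    NI_int (adm_zero (by positivity)) (fb_gc_exp B) 0
  have i3 := (i1.mul_prod i2).const_mul (A * Real.exp (-U 0))
  refine i3.mono' ?_ ?_
  · apply Continuous.aestronglyMeasurable
    unfold pt
    fun_prop
  · refine Filter.Eventually.of_forall ?_
    rintro ⟨x, y⟩
    rw [Real.norm_eq_abs, abs_mul, abs_of_pos (Real.exp_pos _)]
    have hl := pot_lower hU x
    have hl2 : -(G * ‖x‖) ≤ fderiv ℝ U 0 x := by
      have := (fderiv ℝ U 0).le_opNorm x
      have h2 := neg_abs_le (fderiv ℝ U 0 x)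
      rw [Real.norm_eq_abs] at this
      linarith
    have hxy : c * ‖y‖ ^ 2 ≤ t / 4 * ‖x‖ ^ 2 + s / 2 * ‖x - y‖ ^ 2 := by
      have hy : ‖y‖ ≤ ‖x‖ + ‖x - y‖ := by
        have : y = x - (x - y) := by abel
        calc ‖y‖ = ‖x - (x - y)‖ := by rw [← this]
          _ ≤ _ := norm_sub_le _ _
      have hy2 : ‖y‖ ^ 2 ≤ (‖x‖ + ‖x - y‖) ^ 2 := by
        have := norm_nonneg y
        exact pow_le_pow_left₀ this hy 2
      have hgen : ∀ a b u v : ℝ, 0 < a → 0 < b → a * b / (a + b) * (u + v) ^ 2 ≤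
          a * u ^ 2 + b * v ^ 2 := by
        intro a b u v ha hb
        rw [div_mul_eq_mul_div, div_le_iff₀ (by positivity)]
        nlinarith [sq_nonneg (a * u - b * v)]
      calc c * ‖y‖ ^ 2 ≤ c * (‖x‖ + ‖x - y‖) ^ 2 := mul_le_mul_of_nonneg_left hy2 hcpos.le
        _ ≤ _ := hgen _ _ _ _ (by positivity) (by positivity)
    have e1 : A * Real.exp (-U 0) * ((Real.exp ((B + G) * ‖x‖) *
        Real.exp (-pt (fun _ : E => (0:ℝ)) (t / 2) 0 x)) * (Real.exp (B * ‖y‖) *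
        Real.exp (-pt (fun _ : E => (0:ℝ)) (2 * c) 0 y))) =
        A * Real.exp (B * (‖x‖ + ‖y‖)) * Real.exp (-U 0 + G * ‖x‖ - t / 4 * ‖x‖ ^ 2 - c * ‖y‖ ^ 2) := by
      unfold pt
      rw [sub_zero, sub_zero]
      rw [mul_assoc A, mul_assoc A]
      congr 1
      simp only [← Real.exp_add]
      congr 1
      ring
    rw [e1]
    refine mul_le_mul (h (x, y)) ?_ (Real.exp_pos _).le (by positivity)
    apply Real.exp_le_exp.2
    unfold pt
    simp only
    nlinarith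

/-- the integral over the noise -/
theorem fb_noise (s : ℝ) (x : E) : ∫ y : E, Real.exp (-(s * ‖x - y‖ ^ 2 / 2)) = gs E s :=
  integral_sub_left_eq_self (fun z : E => Real.exp (-(s * ‖z‖ ^ 2 / 2))) volume x

theorem fb_noise' (s : ℝ) (x : E) : ∫ y : E, Real.exp (-(s * ‖y - x‖ ^ 2 / 2)) = gs E s :=
  integral_sub_right_eq_self (fun z : E => Real.exp (-(s * ‖z‖ ^ 2 / 2))) x

/-- scaling -/
theorem fb_gs {s : ℝ} (hs : 0 < s) :
    gs E s = ((Real.sqrt s) ^ (Module.finrank ℝ E))⁻¹ * gs E 1 := by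
  have h := Measure.integral_comp_smul (volume : Measure E)
    (fun x : E => Real.exp (-(1 * ‖x‖ ^ 2 / 2))) (Real.sqrt s)
  unfold gs
  rw [smul_eq_mul, abs_of_pos (by positivity)] at h
  rw [← h]
  congr 1
  ext x
  rw [norm_smul, Real.norm_eq_abs, abs_of_nonneg (Real.sqrt_nonneg _), mul_pow,
    Real.sq_sqrt hs.le]
  ring_nf

theorem fb_gs_mul {s τ : ℝ} (hs : 0 < s) (hτ : 0 < τ) :
    gs E (s * τ / (s + τ)) * gs E (s + τ) = gs E s * gs E τ := by
  have h0 : 0 < s * τ / (s + τ) := by positivity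
  rw [fb_gs h0, fb_gs (by positivity : 0 < s + τ), fb_gs hs, fb_gs hτ]
  have e : Real.sqrt (s * τ / (s + τ)) * Real.sqrt (s + τ) = Real.sqrt s * Real.sqrt τ := by
    rw [← Real.sqrt_mul h0.le, ← Real.sqrt_mul hs.le]
    congr 1
    field_simp
  have e2 : (Real.sqrt (s * τ / (s + τ))) ^ (Module.finrank ℝ E) *
      (Real.sqrt (s + τ)) ^ (Module.finrank ℝ E) =
      (Real.sqrt s) ^ (Module.finrank ℝ E) * (Real.sqrt τ) ^ (Module.finrank ℝ E) := by
    rw [← mul_pow, e, mul_pow]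
  calc _ = (((Real.sqrt (s * τ / (s + τ))) ^ (Module.finrank ℝ E) *
      (Real.sqrt (s + τ)) ^ (Module.finrank ℝ E)))⁻¹ * (gs E 1 * gs E 1) := by
        rw [mul_inv]; ring
    _ = _ := by rw [e2, mul_inv]; ring

end Pool.Agent.H19.KL
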